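import Pool.Agent.helper48.EXI.Spec1

/-!
# Block EXI of project NPT (MP_8f32d0_ag), row ODM: odd multiplicities
-/

set_option autoImplicit false

namespace EXI

open scoped Classical
open AN Polynomial

noncomputable section

variable {K : Type} [Field K]

/-- polynomials in `x = 1/s` -/
def ODM_ev (K : Type) [Field K] : K[X] →+* LS K := Polynomial.eval₂RingHom LS.C (mono (-1) (1 : K))

theorem ODM_ev_X : ODM_ev K X = mono (-1) (1 : K) := by
  unfold ODM_ev
  simp

theorem ODM_ev_C (c : K) : ODM_ev K (C c) = LS.C c := by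
  unfold ODM_ev
  simp

theorem ODM_xpow (i : ℕ) : (mono (-1) (1 : K)) ^ i = mono (-(i : ℤ)) 1 := by
  induction i with
  | zero =>
    rw [pow_zero]
    exact (map_one LS.C).symm
  | succ i ih =>
    rw [pow_succ, ih, mono_mul_mono, mul_one]
    congr 1
    push_cast
    ring

theorem ODM_cf (P : K[X]) (k : ℤ) : cf (ODM_ev K P) k =
    ∑ i ∈ Finset.range (P.natDegree + 1), if k = -(i : ℤ) then P.coeff i else 0 := by
  have h : ODM_ev K P = ∑ i ∈ Finset.range (P.natDegree + 1), LS.C (P.coeff i) * (mono (-1) (1 : K)) ^ i := by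
    unfold ODM_ev
    rw [coe_eval₂RingHom, eval₂_eq_sum_range]
  rw [h, cf_sum]
  refine Finset.sum_congr rfl fun i _ => ?_
  rw [cf_C_mul, ODM_xpow, cf_mono]
  split_ifs
  · rw [mul_one]
  · rw [mul_zero]

theorem ODM_cf_neg (P : K[X]) (n : ℕ) : cf (ODM_ev K P) (-(n : ℤ)) = P.coeff n := by
  rw [ODM_cf]
  have h1 : ∀ i ∈ Finset.range (P.natDegree + 1), (if (-(n : ℤ)) = -(i : ℤ) then P.coeff i else 0) =
      if i = n then P.coeff n else 0 := by
    intro i _
    by_cases h : i = n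
    · rw [if_pos h, if_pos (by rw [h]), h]
    · rw [if_neg h, if_neg (by omega)]
  rw [Finset.sum_congr rfl h1, Finset.sum_ite_eq']
  split_ifs with h
  · rfl
  · rw [Finset.mem_range, not_lt] at h
    exact (coeff_eq_zero_of_natDegree_lt (by omega)).symm

theorem ODM_cf_pos (P : K[X]) (k : ℤ) (hk : 0 < k) : cf (ODM_ev K P) k = 0 := by
  rw [ODM_cf]
  refine Finset.sum_eq_zero fun i _ => ?_
  rw [if_neg (by omega)]

theorem ODM_GE (P : K[X]) : ODM_ev K P ∈ GE K (-(P.natDegree : ℤ)) := by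
  intro k hk
  rw [ODM_cf]
  refine Finset.sum_eq_zero fun i hi => ?_
  rw [Finset.mem_range] at hi
  rw [if_neg (by omega)]

theorem ODM_zero (P : K[X]) (h : ODM_ev K P ∈ GE K 1) : P = 0 := by
  ext n
  rw [← ODM_cf_neg, h _ (by omega), coeff_zero]

theorem ODM (hHHV : HHV_stmt) : ODM_stmt := by
  intro p hp g K _ _ t hp2 hMN v hv
  have hodd : 2 * ((p - 1) / 2) = p - 1 := by
    have h1 := hp.out.eq_two_or_odd'
    rcases h1 with h1 | h1
    · exact absurd h1 hp2
    · obtain ⟨a, ha⟩ := h1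
      omega
  have hp1 : 1 ≤ p := hp.out.one_le
  by_contra hcon
  rw [Nat.not_odd_iff_even] at hcon
  obtain ⟨m, hm⟩ := hcon
  set S : Finset (Fin (2 * g + 1)) := Finset.univ.filter (fun i => t i = v) with hS
  have hSpos : 0 < S.card := by
    obtain ⟨i, hi⟩ := hv
    exact Finset.card_pos.2 ⟨i, by rw [hS, Finset.mem_filter]; exact ⟨Finset.mem_univ _, hi⟩⟩
  have hm1 : 1 ≤ m := by omega
  have hmg : m ≤ g := by
    have h1 : S.card ≤ 2 * g + 1 := by
      have h2 := Finset.card_le_univ S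
      rw [Fintype.card_fin] at h2
      exact h2
    omega
  set y : LS K := ODM_ev K (X - C v) with hy
  set h : K[X] := ∏ i ∈ Sᶜ, (X - C (t i)) with hh
  have hf : fx t = y ^ (2 * m) * ODM_ev K h := by
    have h1 : ∀ i, mono (-1) (1 : K) - LS.C (t i) = ODM_ev K (X - C (t i)) := by
      intro i
      rw [map_sub, ODM_ev_X, ODM_ev_C]
    unfold fx
    rw [← Finset.prod_mul_prod_compl S, hh, map_prod]
    congr 1
    · have h2 : ∀ i ∈ S, mono (-1) (1 : K) - LS.C (t i) = y := by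
        intro i hi
        rw [hS, Finset.mem_filter] at hi
        rw [h1, hi.2]
      rw [Finset.prod_congr rfl h2, Finset.prod_const, hm]
      congr 1
      omega
    · exact Finset.prod_congr rfl fun i _ => h1 i
  have hhv : h.eval v ≠ 0 := by
    rw [hh, eval_prod]
    refine Finset.prod_ne_zero_iff.2 fun i hi => ?_
    rw [eval_sub, eval_X, eval_C, sub_ne_zero]
    intro h1
    rw [Finset.mem_compl, hS, Finset.mem_filter] at hi
    exact hi ⟨Finset.mem_univ _, h1.symm⟩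
  have hy0 : y ≠ 0 := by
    intro h0
    have h1 : (X - C v : K[X]) = 0 := ODM_zero _ (by rw [← hy, h0]; exact Submodule.zero_mem _)
    exact X_sub_C_ne_zero v h1
  set Y : LS K := y ^ m with hYd
  have hY0 : Y ≠ 0 := pow_ne_zero _ hy0
  have key : ∀ n : ℕ, ∃ P : K[X], P.eval v ≠ 0 ∧ (Fi p t)^[n] Y⁻¹ = ODM_ev K P * Y⁻¹ := by
    intro n
    induction n with
    | zero => exact ⟨1, by simp, by simp⟩
    | succ n ih =>
      obtain ⟨P, hP, hPn⟩ := ih
      refine ⟨h ^ ((p - 1) / 2) * P ^ p, ?_, ?_⟩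
      · rw [eval_mul, eval_pow, eval_pow]
        exact mul_ne_zero (pow_ne_zero _ hhv) (pow_ne_zero _ hP)
      · rw [Function.iterate_succ_apply', hPn]
        unfold Fi
        rw [hf, mul_pow, mul_pow, map_mul, map_pow, map_pow, ← pow_mul]
        have e1 : 2 * m * ((p - 1) / 2) = m * (p - 1) := by
          rw [mul_comm 2 m, mul_assoc, hodd]
        have e2 : y ^ (2 * m * ((p - 1) / 2)) * (Y⁻¹) ^ p = Y⁻¹ := by
          rw [e1, pow_mul, ← hYd]
          obtain ⟨q, rfl⟩ : ∃ q, p = q + 1 := ⟨p - 1, by omega⟩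
          rw [Nat.add_sub_cancel, pow_succ, ← mul_assoc, ← mul_pow, mul_inv_cancel₀ hY0, one_pow, one_mul]
        calc y ^ (2 * m * ((p - 1) / 2)) * ODM_ev K h ^ ((p - 1) / 2) * (ODM_ev K P ^ p * Y⁻¹ ^ p)
            = ODM_ev K h ^ ((p - 1) / 2) * ODM_ev K P ^ p * (y ^ (2 * m * ((p - 1) / 2)) * Y⁻¹ ^ p) := by ring
          _ = ODM_ev K h ^ ((p - 1) / 2) * ODM_ev K P ^ p * Y⁻¹ := by rw [e2]
  obtain ⟨P, hP, hPg⟩ := key g
  set Z : LS K := ODM_ev K P * Y⁻¹ with hZ
  have hz : ∀ k : ℤ, 1 ≤ k → k ≤ g → cf Z k = 0 := by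
    intro k h1 h2
    have h3 := hHHV.2 p g K t hp2 g Y⁻¹ ⟨(k - 1).toNat, by omega⟩
    rw [hPg, hMN, Matrix.zero_mulVec, Pi.zero_apply] at h3
    have h4 : ((((⟨(k - 1).toNat, by omega⟩ : Fin g) : ℕ) : ℤ) + 1) = k := by
      show (((k - 1).toNat : ℕ) : ℤ) + 1 = k
      omega
    rw [h4] at h3
    exact h3
  obtain ⟨M, hM⟩ := exists_lb_nat Z
  set Q : K[X] := ∑ n ∈ Finset.range (M + 1), C (cf Z (-(n : ℤ))) * X ^ n with hQ
  have hQc : ∀ n : ℕ, Q.coeff n = cf Z (-(n : ℤ)) := by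
    intro n
    rw [hQ, finsetSum_coeff]
    simp only [coeff_C_mul, coeff_X_pow, mul_ite, mul_one, mul_zero]
    rw [Finset.sum_ite_eq]
    split_ifs with h1
    · rfl
    · rw [Finset.mem_range, not_lt] at h1
      exact (hM _ (by omega)).symm
  have hZQ : Z - ODM_ev K Q ∈ GE K (g + 1) := by
    intro k hk
    rw [cf_sub]
    by_cases h1 : 1 ≤ k
    · rw [hz k h1 (by omega), ODM_cf_pos _ _ (by omega), sub_zero]
    · obtain ⟨n, rfl⟩ : ∃ n : ℕ, k = -(n : ℤ) := ⟨(-k).toNat, by omega⟩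
      rw [ODM_cf_neg, hQc, sub_self]
  have hYe : Y = ODM_ev K ((X - C v) ^ m) := by rw [map_pow]
  have hYG : Y ∈ GE K (-(m : ℤ)) := by
    have h1 := ODM_GE ((X - C v : K[X]) ^ m)
    rw [← hYe, natDegree_pow, natDegree_X_sub_C, mul_one] at h1
    exact h1
  have hfin : ODM_ev K (P - Q * (X - C v) ^ m) ∈ GE K 1 := by
    have h1 := GE_mul hZQ hYG
    have h2 : (Z - ODM_ev K Q) * Y = ODM_ev K (P - Q * (X - C v) ^ m) := by
      rw [map_sub, map_mul, ← hYe, hZ, sub_mul, mul_assoc, inv_mul_cancel₀ hY0, mul_one]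
    rw [h2] at h1
    exact GE_mono (by omega) h1
  have h1 := ODM_zero _ hfin
  apply hP
  have h2 : P = Q * (X - C v) ^ m := sub_eq_zero.1 h1
  rw [h2, eval_mul, eval_pow, eval_sub, eval_X, eval_C, sub_self, zero_pow (by omega), mul_zero]

end

end EXI
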